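import Pool.Agent.Helper70.BN.St1

/-!
# Project BN (MP_a2f62e_al): module RYB, the Yang-Baxter equation in rank two
-/

set_option autoImplicit false

namespace Pool.Agent.Helper88.BN

open Pool.Agent.Helper70.BN

section EE

variable {l : ℕ} (q : Fin l → ℕ)

theorem EE_add (hq : ∀ i, 2 ≤ q i) (γ δ : Fin l → ℤ) : EE q (γ + δ) = EE q γ * EE q δ := by
  unfold EE
  rw [← Finset.prod_mul_distrib]
  refine Finset.prod_congr rfl fun j _ => ?_
  have h1 : (q j : ℝ) ≠ 0 := by
    have := hq j
    have : (0 : ℝ) < q j := by exact_mod_cast (by omega : 0 < q j)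
    exact this.ne'
  rw [Pi.add_apply, zpow_add₀ h1]

theorem EE_two (hq : ∀ i, 2 ≤ q i) (γ : Fin l → ℤ) : EE q ((2 : ℤ) • γ) = EE q γ ^ 2 := by
  rw [two_smul, EE_add q hq, sq]

theorem EE_gt (hq : ∀ i, 2 ≤ q i) (γ : Fin l → ℤ) (h0 : 0 ≤ γ) (h1 : γ ≠ 0) : 1 < EE q γ := by
  unfold EE
  have hge : ∀ j, 1 ≤ (q j : ℝ) ^ (γ j) := by
    intro j
    have h2 : (1 : ℝ) ≤ q j := by
      have := hq j
      exact_mod_cast (by omega : 1 ≤ q j)
    exact one_le_zpow₀ h2 (h0 j)
  obtain ⟨k, hk⟩ : ∃ k, γ k ≠ 0 := by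
    by_contra h
    push Not at h
    exact h1 (funext h)
  have hk' : 0 < γ k := lt_of_le_of_ne (h0 k) (Ne.symm hk)
  have h2 : (1 : ℝ) < q k := by
    have := hq k
    exact_mod_cast (by omega : 1 < q k)
  have h3 : 1 < (q k : ℝ) ^ (γ k) := one_lt_zpow₀ h2 hk'
  rw [← Finset.mul_prod_erase Finset.univ _ (Finset.mem_univ k)]
  have h4 : (1 : ℝ) ≤ ∏ j ∈ Finset.univ.erase k, (q j : ℝ) ^ (γ j) := by
    have : ∏ j ∈ Finset.univ.erase k, (1 : ℝ) ≤ ∏ j ∈ Finset.univ.erase k, (q j : ℝ) ^ (γ j) :=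
      Finset.prod_le_prod (fun _ _ => zero_le_one) (fun j _ => hge j)
    simpa using this
  nlinarith

end EE

/-- **Module RYB.** -/
theorem hRYB (hRTWO : StRTWO) (hYB3 : StYB3) (hYB4 : StYB4) : StRYB := by
  intro l A d Φ h q hq hq3 H _ _ T hH i j hij z hz
  obtain ⟨-, hcases⟩ := hRTWO l A d Φ h i j hij
  obtain ⟨hquad, hbraid⟩ := hH
  have key : ∀ β ∈ rts A (alt i j (mm A i j)), EE q (wa A z β) ≠ 1 := by
    intro β hβ
    exact (EE_gt q hq _ (hz β hβ) (h.ne _ (wa_mem h z (rts_mem h _ hβ)))).ne'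
  have hsum : EE q (wa A z (al i + al j)) = EE q (wa A z (al i)) * EE q (wa A z (al j)) := by
    rw [wa_add, EE_add q hq]
  have hsum2 : EE q (wa A z ((2 : ℤ) • al i + al j)) = EE q (wa A z (al i)) ^ 2 * EE q (wa A z (al j)) := by
    rw [wa_add, wa_smul, EE_add q hq, EE_two q hq]
  have hsum3 : EE q (wa A z (al i + (2 : ℤ) • al j)) = EE q (wa A z (al j)) ^ 2 * EE q (wa A z (al i)) := by
    rw [wa_add, wa_smul, EE_add q hq, EE_two q hq, mul_comm]
  have hb := hbraid i j hij
  rcases hcases with ⟨-, -, hm, hr1, hr2⟩ | ⟨-, -, hm, hr1, hr2⟩ | ⟨-, -, hm, hr1, hr2⟩ | ⟨-, -, hm, hr1, hr2⟩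
  · rw [hm] at hb ⊢
    have hb' : T i * T j = T j * T i := by simpa [alt] using hb
    unfold WC PR
    rw [hr1, hr2]
    simp only [alt, List.zip_cons_cons, List.zip_nil_left, List.map_cons, List.map_nil, List.prod_cons,
      List.prod_nil, mul_one]
    have hcomm : Commute (T i) (T j) := hb'
    exact (Commute.add_left
      (Commute.add_right (Algebra.commute_algebraMap_left _ _) (Algebra.commute_algebraMap_left _ _))
      (Commute.add_right (Algebra.commute_algebraMap_right _ _) hcomm)).eq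
  · have hkey := key
    rw [hm, hr1] at hkey
    have hqq : q i = q j := hq3 i j hij hm
    have hx := hkey (al i) (by simp)
    have hxy := hkey (al i + al j) (by simp)
    have hy := hkey (al j) (by simp)
    rw [hsum] at hxy
    rw [hm] at hb ⊢
    have hb' : T i * T j * T i = T j * T i * T j := by simpa [alt, mul_assoc] using hb
    have h3 := hYB3 H (T i) (T j) (q i) (EE q (wa A z (al i))) (EE q (wa A z (al j))) (hquad i)
      (by rw [hqq]; exact hquad j) hb' hx hy hxy
    unfold WC PR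
    rw [hr1, hr2]
    simp only [alt, List.zip_cons_cons, List.zip_nil_left, List.map_cons, List.map_nil, List.prod_cons,
      List.prod_nil, mul_one, cc, hsum, ← hqq]
    simpa only [mul_assoc] using h3
  · have hkey := key
    rw [hm, hr1] at hkey
    have hx := hkey (al i) (by simp)
    have hxxy := hkey ((2 : ℤ) • al i + al j) (by simp)
    have hxy := hkey (al i + al j) (by simp)
    have hy := hkey (al j) (by simp)
    rw [hsum] at hxy
    rw [hsum2] at hxxy
    rw [hm] at hb ⊢
    have hb' : T i * T j * T i * T j = T j * T i * T j * T i := by simpa [alt, mul_assoc] using hb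
    have h4 := hYB4 H (T i) (T j) (q i) (q j) (EE q (wa A z (al i))) (EE q (wa A z (al j))) (hquad i)
      (hquad j) hb' hx hy hxy hxxy
    unfold WC PR
    rw [hr1, hr2]
    simp only [alt, List.zip_cons_cons, List.zip_nil_left, List.map_cons, List.map_nil, List.prod_cons,
      List.prod_nil, mul_one, cc, hsum, hsum2]
    simpa only [mul_assoc] using h4
  · have hkey := key
    rw [hm, hr1] at hkey
    have hx := hkey (al i) (by simp)
    have hxyy := hkey (al i + (2 : ℤ) • al j) (by simp)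
    have hxy := hkey (al i + al j) (by simp)
    have hy := hkey (al j) (by simp)
    rw [hsum, mul_comm] at hxy
    rw [hsum3] at hxyy
    rw [hm] at hb ⊢
    have hb' : T j * T i * T j * T i = T i * T j * T i * T j := by simpa [alt, mul_assoc] using hb.symm
    have h4 := hYB4 H (T j) (T i) (q j) (q i) (EE q (wa A z (al j))) (EE q (wa A z (al i))) (hquad j)
      (hquad i) hb' hy hx hxy hxyy
    unfold WC PR
    rw [hr1, hr2]
    simp only [alt, List.zip_cons_cons, List.zip_nil_left, List.map_cons, List.map_nil, List.prod_cons,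
      List.prod_nil, mul_one, cc, hsum, hsum3]
    rw [mul_comm (EE q (wa A z (al i))) (EE q (wa A z (al j)))]
    simpa only [mul_assoc] using h4.symm

end Pool.Agent.Helper88.BN
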